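import Pool.Agent.SCT.StmtsP

/-!
# SCT, row EVK: the kernel of a singular alternating matrix of even size has dimension at least two
-/

set_option autoImplicit false

namespace Pool.Agent.SCT.H15

open Pool.Agent.SCT

/-- an involution of `Fin 5` has a fixed point -/
theorem inv_fix (σ : Equiv.Perm (Fin 5)) (h : σ⁻¹ = σ) : ∃ i, σ i = i := by
  by_contra hn
  push_neg at hn
  have h1 : σ * σ = 1 := by
    nth_rewrite 1 [← h]
    exact inv_mul_cancel σ
  have h2 : Function.Involutive (σ : Fin 5 → Fin 5) := by
    intro x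
    have := congrArg (fun τ : Equiv.Perm (Fin 5) => τ x) h1
    simpa using this
  have h3 : ∑ _i : Fin 5, (1 : ZMod 2) = 0 := by
    apply Finset.sum_involution (fun (i : Fin 5) _ => σ i)
    · intro _ _
      decide
    · intro i _ _
      exact hn i
    · intro _ _
      exact Finset.mem_univ _
    · intro i _
      exact h2 i
  rw [Finset.sum_const, Finset.card_univ, Fintype.card_fin] at h3
  exact absurd h3 (by decide)

/-- the determinant of an alternating matrix of size five is zero -/
theorem det_five {F : Type} [Field F] (B : Matrix (Fin 5) (Fin 5) F) (h1 : ∀ i, B i i = 0)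
    (h2 : ∀ i j, B i j = -B j i) : B.det = 0 := by
  rw [Matrix.det_apply]
  apply Finset.sum_involution (fun (σ : Equiv.Perm (Fin 5)) _ => σ⁻¹)
  · intro σ _
    have e : ∏ i, B (σ⁻¹ i) i = -∏ i, B (σ i) i := by
      have e1 : ∏ i, B (σ⁻¹ i) i = ∏ i, B i (σ i) := by
        rw [← Equiv.prod_comp σ (fun i => B (σ⁻¹ i) i)]
        apply Finset.prod_congr rfl
        intro i _
        rw [Equiv.Perm.inv_def, Equiv.symm_apply_apply]
      rw [e1]
      have e2 : ∀ i ∈ (Finset.univ : Finset (Fin 5)), B i (σ i) = (-1) * B (σ i) i := by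
        intro i _
        rw [h2 i (σ i)]
        ring
      rw [Finset.prod_congr rfl e2, Finset.prod_mul_distrib, Finset.prod_const, Finset.card_univ,
        Fintype.card_fin]
      ring
    rw [e, Equiv.Perm.sign_inv, smul_neg, add_neg_cancel]
  · intro σ _ h0 h
    apply h0
    obtain ⟨i, hi⟩ := inv_fix σ h
    rw [Finset.prod_eq_zero (Finset.mem_univ i), smul_zero]
    rw [hi, h1]
  · intro _ _
    exact Finset.mem_univ _
  · intro σ _
    exact inv_inv σ

theorem evk : EvkStmt := by
  intro F _ A hA1 hA2 u hu hAu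
  obtain ⟨i0, hi0⟩ : ∃ i0, u i0 ≠ 0 := by
    by_contra hn
    push_neg at hn
    exact hu (funext hn)
  set B : Matrix (Fin 5) (Fin 5) F := Matrix.of fun i j => A (i0.succAbove i) (i0.succAbove j) with hB
  have hdet : B.det = 0 := det_five B (fun i => hA1 _) (fun i j => hA2 _ _)
  obtain ⟨w, hw0, hw⟩ := Matrix.exists_mulVec_eq_zero_iff.2 hdet
  set u' : Fin (4 + 2) → F := Fin.insertNth i0 (0 : F) w with hu'
  have hu'0 : u' i0 = 0 := by
    rw [hu']
    exact Fin.insertNth_apply_same (α := fun _ => F) i0 0 w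
  have hu's : ∀ j : Fin 5, u' (i0.succAbove j) = w j := by
    intro j
    rw [hu']
    exact Fin.insertNth_apply_succAbove (α := fun _ => F) i0 0 w j
  have hz : ∀ i : Fin 5, (A.mulVec u') (i0.succAbove i) = 0 := by
    intro i
    have h1 : (A.mulVec u') (i0.succAbove i) = ∑ j, A (i0.succAbove i) j * u' j := rfl
    rw [h1, Fin.sum_univ_succAbove _ i0, hu'0, mul_zero, zero_add]
    have h2 := congrFun hw i
    have h3 : (B.mulVec w) i = ∑ j, B i j * w j := rfl
    rw [h3] at h2
    rw [← h2.trans (Pi.zero_apply i)]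
    apply Finset.sum_congr rfl
    intro j _
    rw [hu's]
    rfl
  have hz0 : (A.mulVec u') i0 = 0 := by
    have h1 := alt_dot hA2 u u'
    rw [hAu, dotProduct_zero, neg_zero] at h1
    have h2 : u ⬝ᵥ A.mulVec u' = ∑ j, u j * (A.mulVec u') j := rfl
    rw [h2, Fin.sum_univ_succAbove _ i0] at h1
    rw [Finset.sum_eq_zero, add_zero] at h1
    · exact (mul_eq_zero.1 h1).resolve_left hi0
    · intro j _
      rw [hz, mul_zero]
  refine ⟨u', ?_, ?_⟩
  · funext i
    by_cases hi : i = i0
    · rw [hi, hz0]
      rfl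
    · obtain ⟨j, rfl⟩ := Fin.exists_succAbove_eq hi
      rw [hz]
      rfl
  · rw [LinearIndependent.pair_iff]
    intro s t hst
    have h1 : s = 0 := by
      have := congrFun hst i0
      simp only [Pi.add_apply, Pi.smul_apply, smul_eq_mul, hu'0, mul_zero, add_zero,
        Pi.zero_apply] at this
      exact (mul_eq_zero.1 this).resolve_right hi0
    refine ⟨h1, ?_⟩
    by_contra ht
    apply hw0
    funext j
    have := congrFun hst (i0.succAbove j)
    simp only [h1, zero_smul, zero_add, Pi.smul_apply, smul_eq_mul, hu's, Pi.zero_apply] at this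
    exact (mul_eq_zero.1 this).resolve_left ht

end Pool.Agent.SCT.H15
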